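import Mathlib

/-! Anisotropic Brezis-Nirenberg problem: definitions. -/

set_option autoImplicit false

open MeasureTheory Filter Topology Set
open scoped ContDiff

namespace Pool.Agent.Q175.BN

/-- Euclidean space. -/
abbrev E (n : ℕ) : Type := EuclideanSpace ℝ (Fin n)

/-- The critical exponent `2* = 2n/(n-2)`. -/
noncomputable def crit (n : ℕ) : ℝ := 2 * n / (n - 2)

/-- `φ ∈ C_c^∞(Ω)`. -/
def IsTest {n : ℕ} (Ω : Set (E n)) (φ : E n → ℝ) : Prop :=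
  ContDiff ℝ ∞ φ ∧ HasCompactSupport φ ∧ tsupport φ ⊆ Ω

/-- `u ∈ H^1_0(Ω)` with weak gradient `G`: the limits, in `L²`, of a sequence of test functions and of
their gradients. -/
def IsH10 {n : ℕ} (Ω : Set (E n)) (u : E n → ℝ) (G : E n → E n) : Prop :=
  AEStronglyMeasurable u volume ∧ AEStronglyMeasurable G volume ∧
    ∃ φ : ℕ → E n → ℝ, (∀ k, IsTest Ω (φ k)) ∧
      Tendsto (fun k => eLpNorm (fun x => φ k x - u x) 2 volume) atTop (𝓝 0) ∧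
      Tendsto (fun k => eLpNorm (fun x => gradient (φ k) x - G x) 2 volume) atTop (𝓝 0)

/-- The best Sobolev constant `S`. -/
noncomputable def sobolevS (n : ℕ) : ℝ :=
  sInf {r : ℝ | ∃ φ : E n → ℝ, IsTest univ φ ∧ (∃ x, φ x ≠ 0) ∧
    r = (∫ x, ‖gradient φ x‖ ^ 2) / (∫ x, |φ x| ^ crit n) ^ (2 / crit n)}

/-- `∫ a |∇u|² - λ ∫ b u²` for `∇u = G`. -/
noncomputable def quad {n : ℕ} (Θ : Set (E n)) (a b : E n → ℝ) (lam : ℝ) (u : E n → ℝ)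
    (G : E n → E n) : ℝ :=
  (∫ x in Θ, a x * ‖G x‖ ^ 2) - lam * ∫ x in Θ, b x * u x ^ 2

/-- The functional `J_λ`, for `∇u = G`. -/
noncomputable def J {n : ℕ} (Θ : Set (E n)) (a b c : E n → ℝ) (lam : ℝ) (u : E n → ℝ)
    (G : E n → E n) : ℝ :=
  1 / 2 * (∫ x in Θ, a x * ‖G x‖ ^ 2) - lam / 2 * (∫ x in Θ, b x * u x ^ 2) -
    1 / crit n * ∫ x in Θ, c x * |u x| ^ crit n

/-- `u` (with `∇u = G`) lies in the Nehari manifold: `u ∈ H^1_0(Θ) \ {0}`, `J_λ'(u) u = 0`. -/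
def IsNehari {n : ℕ} (Θ : Set (E n)) (a b c : E n → ℝ) (lam : ℝ) (u : E n → ℝ)
    (G : E n → E n) : Prop :=
  IsH10 Θ u G ∧ ¬ (u =ᵐ[volume] fun _ => 0) ∧
    (∫ x in Θ, a x * ‖G x‖ ^ 2) - lam * (∫ x in Θ, b x * u x ^ 2) -
      ∫ x in Θ, c x * |u x| ^ crit n = 0

/-- The ground state level `ℓ_λ`. -/
noncomputable def ell {n : ℕ} (Θ : Set (E n)) (a b c : E n → ℝ) (lam : ℝ) : ℝ :=
  sInf {r : ℝ | ∃ (u : E n → ℝ) (G : E n → E n), IsNehari Θ a b c lam u G ∧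
    r = J Θ a b c lam u G}

/-- The first eigenvalue `λ₁`: the infimum of the Rayleigh quotient over the nonzero test
functions. -/
noncomputable def lam1 {n : ℕ} (Θ : Set (E n)) (a b : E n → ℝ) : ℝ :=
  sInf {r : ℝ | ∃ φ : E n → ℝ, IsTest Θ φ ∧ (∃ x, φ x ≠ 0) ∧
    r = (∫ x in Θ, a x * ‖gradient φ x‖ ^ 2) / ∫ x in Θ, b x * φ x ^ 2}

/-- `f = a^{n/2} / c^{(n-2)/2}`. -/
noncomputable def fac {n : ℕ} (a c : E n → ℝ) (x : E n) : ℝ :=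
  a x ^ ((n : ℝ) / 2) / c x ^ (((n : ℝ) - 2) / 2)

/-- `κ = (min f) S^{n/2} / n`. -/
noncomputable def kappa {n : ℕ} (Θ : Set (E n)) (a c : E n → ℝ) : ℝ :=
  sInf (fac a c '' closure Θ) * (1 / n) * sobolevS n ^ ((n : ℝ) / 2)

/-- `λ_{0,*} = inf {λ < λ₁ : ℓ_λ < κ}` in the extended reals. -/
noncomputable def lamStar {n : ℕ} (Θ : Set (E n)) (a b c : E n → ℝ) : EReal :=
  sInf {L : EReal | ∃ lam : ℝ, L = lam ∧ lam < lam1 Θ a b ∧ ell Θ a b c lam < kappa Θ a c}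

end Pool.Agent.Q175.BN
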