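import Pool.Agent.Q175.BN.Defs

/-! Anisotropic Brezis-Nirenberg problem: the example. -/

set_option autoImplicit false

open MeasureTheory Filter Topology Set
open scoped ContDiff

namespace Pool.Agent.Q175.BN

variable {n : ℕ}

lemma crit_pos (hn : 3 ≤ n) : 2 < crit n := by
  have h : (3:ℝ) ≤ n := by exact_mod_cast hn
  unfold crit
  rw [lt_div_iff₀ (by linarith)]
  linarith

lemma norm_grad (φ : E n → ℝ) (x : E n) : ‖gradient φ x‖ = ‖fderiv ℝ φ x‖ := by
  unfold gradient
  rw [LinearIsometryEquiv.norm_map]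

lemma grad_cont {φ : E n → ℝ} (h : ContDiff ℝ ∞ φ) : Continuous (gradient φ) := by
  have : Continuous (fderiv ℝ φ) := h.continuous_fderiv (by simp)
  exact (InnerProductSpace.toDual ℝ (E n)).symm.continuous.comp this

lemma grad_supp {φ : E n → ℝ} (hf : HasCompactSupport φ) : HasCompactSupport (gradient φ) :=
  (hf.fderiv (𝕜 := ℝ)).comp_left (g := (InnerProductSpace.toDual ℝ (E n)).symm) (map_zero _)

/-- The Sobolev inequality in real form. -/
lemma sobolev (hn : 3 ≤ n) : ∃ C : ℝ, 0 < C ∧ ∀ φ : E n → ℝ, IsTest univ φ →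
    (∫ x, |φ x| ^ crit n) ^ (1 / crit n) ≤ C * (∫ x, ‖gradient φ x‖ ^ 2) ^ (1 / 2 : ℝ) := by
  have hn' : (3:ℝ) ≤ n := by exact_mod_cast hn
  have hcrit := crit_pos hn
  have hc0 : 0 ≤ crit n := by linarith
  set p' : NNReal := ⟨crit n, hc0⟩ with hp'
  set K : NNReal := eLpNormLESNormFDerivOfEqInnerConst (volume : Measure (E n)) ((2 : NNReal) : ℝ) with hK
  refine ⟨K + 1, by positivity, fun φ hφ => ?_⟩
  have h := eLpNorm_le_eLpNorm_fderiv_of_eq_inner (volume : Measure (E n)) (u := φ)
    (hφ.1.of_le (by exact_mod_cast le_top)) hφ.2.1 (p := 2) (p' := p') (by norm_num)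
    (by rw [finrank_euclideanSpace_fin]; omega) (by
      rw [finrank_euclideanSpace_fin]
      change (crit n)⁻¹ = ((2 : NNReal) : ℝ)⁻¹ - (n : ℝ)⁻¹
      unfold crit
      have : (n:ℝ) - 2 ≠ 0 := by linarith
      have : (n:ℝ) ≠ 0 := by linarith
      push_cast
      field_simp)
  have m1 : MemLp φ p' volume := hφ.1.continuous.memLp_of_hasCompactSupport hφ.2.1
  have m2 : MemLp (fderiv ℝ φ) (2 : NNReal) volume :=
    (hφ.1.continuous_fderiv (by simp)).memLp_of_hasCompactSupport (hφ.2.1.fderiv (𝕜 := ℝ))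
  have hp0 : (p' : ENNReal) ≠ 0 := by
    rw [Ne, ENNReal.coe_eq_zero]
    intro h0
    have : crit n = 0 := congrArg NNReal.toReal h0
    linarith
  rw [m1.eLpNorm_eq_integral_rpow_norm hp0 ENNReal.coe_ne_top] at h
  have h2 := m2.eLpNorm_eq_integral_rpow_norm (by norm_num) ENNReal.coe_ne_top
  rw [h2] at h
  have e1 : ((p' : ENNReal)).toReal = crit n := rfl
  have e2 : (((2 : NNReal) : ENNReal)).toReal = 2 := by simp
  rw [e1, e2, ← ENNReal.ofReal_coe_nnreal, ← ENNReal.ofReal_mul (by positivity)] at h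
  have h3 := (ENNReal.ofReal_le_ofReal_iff (by positivity)).mp h
  have e3 : ∫ x, ‖fderiv ℝ φ x‖ ^ (2:ℝ) = ∫ x, ‖gradient φ x‖ ^ 2 := by
    congr 1; ext x; rw [norm_grad]; norm_cast
  rw [e3] at h3
  simp only [Real.norm_eq_abs] at h3
  rw [one_div, one_div]
  refine h3.trans ?_
  gcongr
  linarith

lemma test_exists : ∃ φ : E n → ℝ, IsTest univ φ ∧ ∃ x, φ x ≠ 0 := by
  let φ : ContDiffBump (0 : E n) := ⟨1, 2, by norm_num, by norm_num⟩
  exact ⟨φ, ⟨φ.contDiff, φ.hasCompactSupport, subset_univ _⟩, 0, by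
    rw [φ.one_of_mem_closedBall (by simp; norm_num)]; norm_num⟩

lemma S_pos (hn : 3 ≤ n) : 0 < sobolevS n := by
  obtain ⟨C, hC, h⟩ := sobolev hn
  have hcrit := crit_pos hn
  have hlow : 1 / C ^ 2 ≤ sobolevS n := by
    unfold sobolevS
    apply le_csInf
    · obtain ⟨φ, hφ, hx⟩ := test_exists (n := n)
      exact ⟨_, φ, hφ, hx, rfl⟩
    · rintro r ⟨φ, hφ, ⟨x, hx⟩, rfl⟩
      have h1 := h φ hφ
      set P := ∫ x, |φ x| ^ crit n with hP
      set D := ∫ x, ‖gradient φ x‖ ^ 2 with hD
      have hD0 : 0 ≤ D := integral_nonneg fun x => by positivity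
      have hPpos : 0 < P := by
        have hcont : Continuous (fun x => |φ x| ^ crit n) :=
          hφ.1.continuous.abs.rpow_const fun x => Or.inr (by linarith)
        have hcs : HasCompactSupport (fun x => |φ x| ^ crit n) :=
          hφ.2.1.comp_left (g := fun y : ℝ => |y| ^ crit n) (by
            simp; rw [Real.zero_rpow (by linarith)])
        exact hcont.integral_pos_of_hasCompactSupport_nonneg_nonzero hcs
          (fun x => by positivity) (x := x) (by
            have : 0 < |φ x| := abs_pos.mpr hx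
            positivity)
      have h2 : (P ^ (1 / crit n)) ^ 2 ≤ (C * D ^ (1 / 2 : ℝ)) ^ 2 :=
        pow_le_pow_left₀ (by positivity) h1 2
      have e1 : (P ^ (1 / crit n)) ^ 2 = P ^ (2 / crit n) := by
        rw [← Real.rpow_natCast, ← Real.rpow_mul hPpos.le]
        congr 1
        push_cast; ring
      have e2 : (D ^ (1 / 2 : ℝ)) ^ 2 = D := by
        rw [← Real.rpow_natCast, ← Real.rpow_mul hD0]
        norm_num
      rw [mul_pow, e1, e2] at h2
      have h3 : 0 < P ^ (2 / crit n) := by positivity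
      rw [div_le_div_iff₀ (by positivity) h3]
      linarith
  have : 0 < 1 / C ^ 2 := by positivity
  linarith

/-- the Nehari levels are nonnegative for `λ ≤ 0` -/
lemma J_nonneg (hn : 3 ≤ n) {Θ : Set (E n)} {a b c : E n → ℝ} {lam : ℝ} (hlam : lam ≤ 0)
    (ha : ∀ x, 0 < a x) (hb : ∀ x, 0 < b x) {u : E n → ℝ} {G : E n → E n}
    (h : IsNehari Θ a b c lam u G) : 0 ≤ J Θ a b c lam u G := by
  have h1 := h.2.2
  have hcrit := crit_pos hn
  unfold J
  set X := ∫ x in Θ, a x * ‖G x‖ ^ 2 with hX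
  set B := ∫ x in Θ, b x * u x ^ 2 with hB
  set Y := ∫ x in Θ, c x * |u x| ^ crit n with hY
  have hX0 : 0 ≤ X := integral_nonneg fun x => mul_nonneg (ha x).le (by positivity)
  have hB0 : 0 ≤ B := integral_nonneg fun x => mul_nonneg (hb x).le (by positivity)
  have hYe : Y = X - lam * B := by linarith
  rw [hYe]
  have h2 : 1 / 2 * X - lam / 2 * B - 1 / crit n * (X - lam * B) = (1 / 2 - 1 / crit n) * (X - lam * B) := by ring
  rw [h2]
  apply mul_nonneg
  · have : 1 / crit n ≤ 1 / 2 := one_div_le_one_div_of_le (by norm_num) hcrit.le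
    linarith
  · nlinarith

section ex
variable (n)

/-- the inner bump -/
noncomputable def chi : ContDiffBump (0 : E n) := ⟨1/4, 1/2, by norm_num, by norm_num⟩
/-- the test function -/
noncomputable def phi : ContDiffBump (0 : E n) := ⟨1/2, 3/4, by norm_num, by norm_num⟩

variable {n}

/-- the first coordinate -/
noncomputable def x0 (hn : 3 ≤ n) (x : E n) : ℝ := x ⟨0, by omega⟩

noncomputable def aa (M : ℝ) (x : E n) : ℝ := 1 + M * chi n x

noncomputable def cc (hn : 3 ≤ n) (M : ℝ) (x : E n) : ℝ :=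
  aa M x ^ ((n : ℝ) / (n - 2)) * Real.exp (-(2 / ((n : ℝ) - 2)) * x0 hn x)

lemma aa_ge {M : ℝ} (hM : 0 ≤ M) (x : E n) : 1 ≤ aa M x := by
  have := (chi n).nonneg (x := x)
  unfold aa
  nlinarith

lemma aa_pos {M : ℝ} (hM : 0 ≤ M) (x : E n) : 0 < aa M x := by
  have := aa_ge hM x; linarith

lemma aa_smooth (M : ℝ) : ContDiff ℝ ∞ (aa (n := n) M) :=
  contDiff_const.add (contDiff_const.mul (chi n).contDiff)

lemma x0_smooth (hn : 3 ≤ n) : ContDiff ℝ ∞ (x0 hn) := by
  unfold x0; fun_prop

lemma cc_pos (hn : 3 ≤ n) {M : ℝ} (hM : 0 ≤ M) (x : E n) : 0 < cc hn M x :=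
  mul_pos (Real.rpow_pos_of_pos (aa_pos hM x) _) (Real.exp_pos _)

lemma cc_smooth (hn : 3 ≤ n) {M : ℝ} (hM : 0 ≤ M) : ContDiff ℝ ∞ (cc hn M) := by
  have h1 : ContDiff ℝ ∞ (fun x : E n => aa M x ^ ((n : ℝ) / (n - 2))) :=
    (aa_smooth M).rpow_const_of_ne fun x => (aa_pos hM x).ne'
  exact h1.mul (contDiff_const.mul (x0_smooth hn)).exp

lemma fac_eq (hn : 3 ≤ n) {M : ℝ} (hM : 0 ≤ M) : fac (aa M) (cc hn M) = fun x => Real.exp (x0 hn x) := by
  have hn' : (3:ℝ) ≤ n := by exact_mod_cast hn
  have h2 : (n:ℝ) - 2 ≠ 0 := by linarith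
  ext x
  unfold fac cc
  have ha := aa_pos hM x
  rw [Real.mul_rpow (by positivity) (by positivity), ← Real.rpow_mul ha.le, ← Real.exp_mul]
  have e1 : (n : ℝ) / (n - 2) * ((n - 2) / 2) = n / 2 := by field_simp
  have e2 : -(2 / ((n : ℝ) - 2)) * x0 hn x * ((n - 2) / 2) = -x0 hn x := by field_simp
  rw [e1, e2, Real.exp_neg]
  have h3 : aa M x ^ ((n:ℝ) / 2) ≠ 0 := (Real.rpow_pos_of_pos ha _).ne'
  field_simp

lemma x0_le (hn : 3 ≤ n) (x : E n) : |x0 hn x| ≤ ‖x‖ := by
  have := PiLp.norm_apply_le x (⟨0, by omega⟩ : Fin n)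
  simpa [x0] using this

/-- the minimum points of `f` -/
lemma min_points (hn : 3 ≤ n) {M : ℝ} (hM : 0 ≤ M) {x : E n} (hx : x ∈ closure (Metric.ball (0 : E n) 1))
    (hmin : IsMinOn (fac (aa M) (cc hn M)) (closure (Metric.ball (0 : E n) 1)) x) :
    x ∈ frontier (Metric.ball (0 : E n) 1) ∧ gradient (fac (aa M) (cc hn M)) x ≠ 0 := by
  rw [fac_eq hn hM] at hmin ⊢
  set y : E n := EuclideanSpace.single ⟨0, by omega⟩ (-1) with hy
  have hyn : ‖y‖ = 1 := by simp [hy]
  have hy1 : y ∈ closure (Metric.ball (0 : E n) 1) := by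
    rw [closure_ball _ one_ne_zero, mem_closedBall_zero_iff, hyn]
  have h1 : Real.exp (x0 hn x) ≤ Real.exp (x0 hn y) := hmin hy1
  rw [Real.exp_le_exp] at h1
  have h2 : x0 hn y = -1 := by simp [x0, hy]
  rw [h2] at h1
  have h3 := abs_le.mp (x0_le hn x)
  have h4 : 1 ≤ ‖x‖ := by linarith
  constructor
  · refine ⟨hx, ?_⟩
    rw [Metric.isOpen_ball.interior_eq, mem_ball_zero_iff]
    linarith
  · intro h0
    have hd : HasGradientAt (fun x => Real.exp (x0 hn x)) (gradient (fun x => Real.exp (x0 hn x)) x) x :=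
      ((x0_smooth hn).exp.differentiable (by simp) x).hasGradientAt
    rw [h0, hasGradientAt_iff_hasFDerivAt] at hd
    have hL : HasFDerivAt (x0 hn) (EuclideanSpace.proj (⟨0, by omega⟩ : Fin n) : E n →L[ℝ] ℝ) x :=
      (EuclideanSpace.proj (⟨0, by omega⟩ : Fin n) : E n →L[ℝ] ℝ).hasFDerivAt
    have hd2 := hL.exp
    have h5 := hd.unique hd2
    have h6 := congrArg (fun L : E n →L[ℝ] ℝ => L (EuclideanSpace.single ⟨0, by omega⟩ 1)) h5
    simp at h6
    exact absurd h6 (Real.exp_pos _).ne

lemma phi_test : IsTest (Metric.ball (0 : E n) 1) (phi n) := by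
  refine ⟨(phi n).contDiff, (phi n).hasCompactSupport, ?_⟩
  rw [(phi n).tsupport_eq]
  exact Metric.closedBall_subset_ball (by change (3/4 : ℝ) < 1; norm_num)

/-- the weight is `1` where the gradient of the test function does not vanish -/
lemma aa_grad (M : ℝ) (x : E n) : aa M x * ‖gradient (phi n) x‖ ^ 2 = ‖gradient (phi n) x‖ ^ 2 := by
  by_cases hx : ‖x‖ < 1/2
  · have h1 : (phi n : E n → ℝ) =ᶠ[𝓝 x] fun _ => 1 := by
      filter_upwards [Metric.isOpen_ball.mem_nhds (show x ∈ Metric.ball (0 : E n) (1/2) by simpa using hx)] with y hy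
      exact (phi n).one_of_mem_closedBall (Metric.ball_subset_closedBall hy)
    have h2 : gradient (phi n) x = 0 := by
      unfold gradient
      rw [h1.fderiv_eq]
      simp
    rw [h2]; simp
  · have h1 : chi n x = 0 := by
      apply (chi n).zero_of_le_dist
      rw [dist_zero_right]
      change (1/2 : ℝ) ≤ ‖x‖
      linarith
    unfold aa
    rw [h1]; ring

end ex

/-- Main construction. -/
theorem main (hn : 3 ≤ n) (L : ℝ) : ∃ M : ℝ, 0 ≤ M ∧
    lamStar (Metric.ball (0 : E n) 1) (aa M) (fun _ => 1) (cc hn M) ≤ L := by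
  have hn' : (3:ℝ) ≤ n := by exact_mod_cast hn
  have hcrit := crit_pos hn
  set Θ := Metric.ball (0 : E n) 1 with hΘ
  set lam : ℝ := min L (-1) with hlam
  have hlam0 : lam < 0 := by
    have := min_le_right L (-1)
    linarith
  set X : ℝ := (∫ x in Θ, ‖gradient (phi n) x‖ ^ 2) - lam * ∫ x in Θ, 1 * (phi n x) ^ 2 with hX
  set K : ℝ := Real.exp (-(2 / ((n : ℝ) - 2))) * (volume (Metric.closedBall (0 : E n) (1/4))).toReal with hK
  have hvol : 0 < (volume (Metric.closedBall (0 : E n) (1/4))).toReal :=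
    ENNReal.toReal_pos (Metric.measure_closedBall_pos _ _ (by norm_num)).ne' (isCompact_closedBall _ _).measure_lt_top.ne
  have hKpos : 0 < K := by positivity
  have hphc := (phi n).continuous
  have hφ2 : Continuous (fun x => (1:ℝ) * (phi n x) ^ 2) := by fun_prop
  have hcomp : IsCompact (Metric.closedBall (0 : E n) 1) := isCompact_closedBall _ _
  have hsub : Θ ⊆ Metric.closedBall (0 : E n) 1 := Metric.ball_subset_closedBall
  have hint : ∀ G : E n → ℝ, Continuous G → IntegrableOn G Θ := fun G hG =>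
    (hG.continuousOn.integrableOn_compact hcomp).mono_set hsub
  have hB : 0 < ∫ x in Θ, (1:ℝ) * (phi n x) ^ 2 := by
    rw [setIntegral_pos_iff_support_of_nonneg_ae (Eventually.of_forall fun x => by positivity) (hint _ hφ2)]
    refine lt_of_lt_of_le (Metric.measure_ball_pos volume (0 : E n) (show (0:ℝ) < 1/4 by norm_num))
      (measure_mono fun x hx => ⟨?_, Metric.ball_subset_ball (by norm_num) hx⟩)
    rw [Function.mem_support, (phi n).one_of_mem_closedBall (Metric.closedBall_subset_closedBall (by change (1/4:ℝ) ≤ 1/2; norm_num) (Metric.ball_subset_closedBall hx))]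
    norm_num
  have hXpos : 0 < X := by
    have : 0 ≤ ∫ x in Θ, ‖gradient (phi n) x‖ ^ 2 := integral_nonneg fun x => by positivity
    nlinarith
  -- the threshold
  set κ : ℝ := Real.exp (-1) * (1 / n) * sobolevS n ^ ((n : ℝ) / 2) with hκ
  have hκpos : 0 < κ := by
    have := S_pos hn
    positivity
  have hκle : ∀ M : ℝ, 0 ≤ M → κ ≤ kappa Θ (aa M) (cc hn M) := by
    intro M hM
    unfold kappa
    have hS := S_pos hn
    have : Real.exp (-1) ≤ sInf (fac (aa M) (cc hn M) '' closure Θ) := by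
      apply le_csInf
      · exact ⟨_, 0, subset_closure (by simp [hΘ]), rfl⟩
      · rintro _ ⟨x, hx, rfl⟩
        rw [fac_eq hn hM, Real.exp_le_exp]
        rw [hΘ, closure_ball _ one_ne_zero, mem_closedBall_zero_iff] at hx
        have := abs_le.mp (x0_le hn x)
        linarith
    rw [hκ]
    gcongr
  -- choose `M`
  obtain ⟨M, hM, hMlt⟩ : ∃ M : ℝ, 0 ≤ M ∧
      (1 / n : ℝ) * X * (X / ((1 + M) * K)) ^ (((n:ℝ) - 2) / 2) < κ := by
    have h1 : Tendsto (fun M : ℝ => X / ((1 + M) * K)) atTop (𝓝 0) := by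
      apply Tendsto.div_atTop tendsto_const_nhds
      exact (tendsto_atTop_add_const_left _ _ tendsto_id).atTop_mul_const hKpos
    have h2 : Tendsto (fun M : ℝ => (1 / n : ℝ) * X * (X / ((1 + M) * K)) ^ (((n:ℝ) - 2) / 2)) atTop (𝓝 0) := by
      have h3 := (h1.rpow_const (p := ((n:ℝ) - 2) / 2) (Or.inr (by linarith))).const_mul ((1 / n : ℝ) * X)
      rwa [Real.zero_rpow (by linarith), mul_zero] at h3
    obtain ⟨M, h4, h5⟩ := ((h2.eventually (Iio_mem_nhds hκpos)).and (eventually_ge_atTop 0)).exists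
    exact ⟨M, h5, h4⟩
  refine ⟨M, hM, ?_⟩
  unfold lamStar
  refine sInf_le_of_le (b := ((lam : ℝ) : EReal)) ⟨lam, rfl, ?_, ?_⟩ ?_
  · refine hlam0.trans_le ?_
    unfold lam1
    apply Real.sInf_nonneg
    rintro r ⟨φ, -, -, rfl⟩
    apply div_nonneg
    · exact integral_nonneg fun x => mul_nonneg (aa_pos hM x).le (by positivity)
    · exact integral_nonneg fun x => by positivity
  · refine lt_of_lt_of_le ?_ (hκle M hM)
    -- the test function
    set Y : ℝ := ∫ x in Θ, cc hn M x * |phi n x| ^ crit n with hY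
    have hccont : Continuous (cc hn M) := (cc_smooth hn hM).continuous
    have hYc : Continuous (fun x => cc hn M x * |phi n x| ^ crit n) :=
      hccont.mul (hphc.abs.rpow_const fun x => Or.inr (by linarith))
    have hYge : (1 + M) * K ≤ Y := by
      have hsub2 : Metric.closedBall (0 : E n) (1/4) ⊆ Θ := Metric.closedBall_subset_ball (by norm_num)
      have h1 : ∫ x in Metric.closedBall (0 : E n) (1/4), (1 + M) * Real.exp (-(2 / ((n : ℝ) - 2))) ≤
          ∫ x in Metric.closedBall (0 : E n) (1/4), cc hn M x * |phi n x| ^ crit n := by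
        apply setIntegral_mono_on
        · exact integrableOn_const (isCompact_closedBall _ _).measure_lt_top.ne
        · exact (hint _ hYc).mono_set hsub2
        · exact measurableSet_closedBall
        · intro x hx
          have e1 : phi n x = 1 := (phi n).one_of_mem_closedBall
            (Metric.closedBall_subset_closedBall (by change (1/4:ℝ) ≤ 1/2; norm_num) hx)
          have e2 : chi n x = 1 := (chi n).one_of_mem_closedBall hx
          rw [e1, abs_one, Real.one_rpow, mul_one]
          unfold cc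
          have e3 : aa M x = 1 + M := by unfold aa; rw [e2]; ring
          rw [e3]
          have h2 : 1 + M ≤ (1 + M) ^ ((n : ℝ) / (n - 2)) := by
            have h3 : (1 : ℝ) ≤ (n : ℝ) / (n - 2) := by
              rw [le_div_iff₀ (by linarith)]; linarith
            calc 1 + M = (1 + M) ^ (1:ℝ) := (Real.rpow_one _).symm
              _ ≤ _ := Real.rpow_le_rpow_of_exponent_le (by linarith) h3
          have h4 : Real.exp (-(2 / ((n : ℝ) - 2))) ≤ Real.exp (-(2 / ((n : ℝ) - 2)) * x0 hn x) := by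
            rw [Real.exp_le_exp]
            have h5 : x0 hn x ≤ 1 := by
              have := abs_le.mp (x0_le hn x)
              rw [mem_closedBall_zero_iff] at hx
              linarith
            have h6 : 0 < 2 / ((n : ℝ) - 2) := div_pos (by norm_num) (by linarith)
            nlinarith
          exact mul_le_mul h2 h4 (Real.exp_pos _).le (by positivity)
      rw [setIntegral_const, smul_eq_mul, Measure.real] at h1
      have h2 : ∫ x in Metric.closedBall (0 : E n) (1/4), cc hn M x * |phi n x| ^ crit n ≤ Y := by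
        apply setIntegral_mono_set (hint _ hYc)
        · exact Eventually.of_forall fun x => mul_nonneg (cc_pos hn hM x).le (by positivity)
        · exact Eventually.of_forall hsub2
      rw [hK]
      linarith
    have hYpos : 0 < Y := lt_of_lt_of_le (by positivity) hYge
    set t : ℝ := (X / Y) ^ (1 / (crit n - 2)) with ht
    have hXY : 0 < X / Y := by positivity
    have htpos : 0 < t := Real.rpow_pos_of_pos hXY _
    have htp : t ^ crit n * Y = t ^ 2 * X := by
      have h1 : t ^ crit n = t ^ (2:ℝ) * t ^ (crit n - 2) := by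
        rw [← Real.rpow_add htpos]; congr 1; ring
      have h2 : t ^ (crit n - 2) = X / Y := by
        rw [ht, ← Real.rpow_mul hXY.le, one_div, inv_mul_cancel₀ (by linarith), Real.rpow_one]
      rw [h1, h2, Real.rpow_two]
      field_simp
    have ht2 : t ^ 2 = (X / Y) ^ (((n:ℝ) - 2) / 2) := by
      rw [ht, ← Real.rpow_two, ← Real.rpow_mul hXY.le]
      congr 1
      unfold crit
      have h1 : (n:ℝ) - 2 ≠ 0 := by linarith
      have h2 : 2 * (n:ℝ) / (n - 2) - 2 = 4 / (n - 2) := by field_simp; ring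
      rw [h2]
      field_simp
      norm_num
    -- integrals of the test function
    have e1 : ∫ x in Θ, aa M x * ‖t • gradient (phi n) x‖ ^ 2 = t ^ 2 * ∫ x in Θ, ‖gradient (phi n) x‖ ^ 2 := by
      rw [← integral_const_mul]
      refine setIntegral_congr_fun Metric.isOpen_ball.measurableSet fun x _ => ?_
      rw [norm_smul, mul_pow, Real.norm_eq_abs, sq_abs]
      have := aa_grad M x
      linear_combination t ^ 2 * this
    have e2 : ∫ x in Θ, 1 * (t * phi n x) ^ 2 = t ^ 2 * ∫ x in Θ, 1 * (phi n x) ^ 2 := by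
      rw [← integral_const_mul]
      congr 1; ext x; ring
    have e3 : ∫ x in Θ, cc hn M x * |t * phi n x| ^ crit n = t ^ crit n * Y := by
      rw [hY, ← integral_const_mul]
      congr 1; ext x
      rw [abs_mul, abs_of_pos htpos, Real.mul_rpow htpos.le (abs_nonneg _)]
      ring
    have hgrad : ∀ x, gradient (fun x => t * phi n x) x = t • gradient (phi n) x := by
      intro x
      unfold gradient
      rw [fderiv_const_mul ((phi n).contDiff.differentiable (n := 1) (by norm_num) x)]
      simp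
    have htest : IsTest Θ (fun x => t * phi n x) := by
      refine ⟨contDiff_const.mul phi_test.1, phi_test.2.1.mul_left, ?_⟩
      refine Subset.trans ?_ phi_test.2.2
      exact closure_mono fun x hx h0 => hx (by simp [h0])
    have hneh : IsNehari Θ (aa M) (fun _ => 1) (cc hn M) lam (fun x => t * phi n x)
        (fun x => t • gradient (phi n) x) := by
      refine ⟨⟨htest.1.continuous.aestronglyMeasurable, ?_, fun _ => fun x => t * phi n x, fun _ => htest, ?_, ?_⟩, ?_, ?_⟩
      · exact ((grad_cont phi_test.1).const_smul t).aestronglyMeasurable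
      · simp
      · simp [hgrad]
      · intro h0
        have h1 : ∫ x in Θ, (1:ℝ) * (phi n x) ^ 2 = 0 := by
          apply integral_eq_zero_of_ae
          filter_upwards [ae_restrict_of_ae h0] with x hx
          have h2 : t * phi n x = 0 := hx
          have h3 : phi n x = 0 := (mul_eq_zero.mp h2).resolve_left htpos.ne'
          simp [h3]
        linarith
      · rw [e1, e2, e3, htp]
        rw [hX]; ring
    have hmem : J Θ (aa M) (fun _ => 1) (cc hn M) lam (fun x => t * phi n x)
        (fun x => t • gradient (phi n) x) ∈ {r : ℝ | ∃ (u : E n → ℝ) (G : E n → E n),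
          IsNehari Θ (aa M) (fun _ => 1) (cc hn M) lam u G ∧ r = J Θ (aa M) (fun _ => 1) (cc hn M) lam u G} :=
      ⟨_, _, hneh, rfl⟩
    have hle : ell Θ (aa M) (fun _ => 1) (cc hn M) lam ≤ J Θ (aa M) (fun _ => 1) (cc hn M) lam (fun x => t * phi n x)
        (fun x => t • gradient (phi n) x) := by
      apply csInf_le _ hmem
      refine ⟨0, ?_⟩
      rintro r ⟨u, G, hu, rfl⟩
      exact J_nonneg hn hlam0.le (aa_pos hM) (fun _ => one_pos) hu
    refine hle.trans_lt (lt_of_le_of_lt ?_ hMlt)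
    unfold J
    rw [e1, e2, e3, htp, ht2]
    have h1 : (X / Y) ^ (((n:ℝ) - 2) / 2) ≤ (X / ((1 + M) * K)) ^ (((n:ℝ) - 2) / 2) := by
      apply Real.rpow_le_rpow hXY.le _ (by linarith)
      gcongr
    have h2 : 1 / 2 * ((X / Y) ^ (((n:ℝ) - 2) / 2) * ∫ x in Θ, ‖gradient (phi n) x‖ ^ 2) -
        lam / 2 * ((X / Y) ^ (((n:ℝ) - 2) / 2) * ∫ x in Θ, 1 * (phi n x) ^ 2) -
        1 / crit n * ((X / Y) ^ (((n:ℝ) - 2) / 2) * X) = (1 / n : ℝ) * X * (X / Y) ^ (((n:ℝ) - 2) / 2) := by
      have h3 : (1:ℝ) / crit n = 1 / 2 - 1 / n := by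
        unfold crit
        have : (n:ℝ) - 2 ≠ 0 := by linarith
        have : (n:ℝ) ≠ 0 := by linarith
        field_simp
      rw [h3, hX]; ring
    rw [h2]
    gcongr
  · exact EReal.coe_le_coe_iff.mpr (min_le_left L (-1))

end Pool.Agent.Q175.BN
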